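import Pool.Agent.H144Z.Net.Main

set_option autoImplicit false

namespace Pool.Agent.Results.MP_1ce9e9_gt.AOpenFillable

open Pool.Agent.H144Z.Net

/-- The set of `8`-tuples of distinct points of the plane that form an unboundedly fillable set
contains a non-empty open subset of the space of `8`-tuples. -/
theorem result : ∃ U : Set (Fin 8 → ℂ), IsOpen U ∧ U.Nonempty ∧
    ∀ s ∈ U, Function.Injective s ∧ UnboundedlyFillable (Finset.univ.image s) :=
  main

end Pool.Agent.Results.MP_1ce9e9_gt.AOpenFillable
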